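import Mathlib
import Pool.Agent.H569.ER4

namespace Pool.Agent.Results.MP_028722_nt.ExactGapVectors

open Filter

/-- the scale `log x (log log x)² log log log log x / (log log log x)²`; the gap record of Ford, Green, Konyagin,
Maynard and Tao is `log x log log x log log log log x / log log log x`. -/
noncomputable def f (x : ℝ) : ℝ :=
  Real.log x * (Real.log (Real.log x)) ^ 2 * Real.log (Real.log (Real.log (Real.log x))) /
    (Real.log (Real.log (Real.log x))) ^ 2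

/-- there are `P 0 = p, P 1, …, P m` with `P (i + 1) - P i = g i`, all of them primes `≡ h (mod q)`, which are all the
primes of the open interval `(P 0 - L, P m + L)` -/
def Run {m : ℕ} (q h L : ℕ) (g : Fin m → ℕ) (p : ℕ) : Prop :=
  ∃ P : Fin (m + 1) → ℕ, P 0 = p ∧ (∀ i, (P i).Prime ∧ P i ≡ h [MOD q]) ∧
    (∀ i : Fin m, P i.succ = P i.castSucc + g i) ∧
    ∀ r : ℕ, r.Prime → P 0 < r + L → r < P (Fin.last m) + L → ∃ i, r = P i

/-- the number of the `p ∈ (X, 4 X]` at which such a run begins -/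
noncomputable def count {m : ℕ} (q h L : ℕ) (g : Fin m → ℕ) (X : ℝ) : ℕ :=
  Set.ncard {p : ℕ | X < p ∧ (p : ℝ) ≤ 4 * X ∧ Run q h L g p}

/-- the shape `v` recurs: for some `κ > 0` and arbitrarily large `X` there are `D ≥ L ≥ κ f(X)` such that at least
`X ^ (4 / 5)` runs with the gaps `D v 0, …, D v (m - 1)` begin in `(X, 4 X]` -/
def Recurs {m : ℕ} (q h : ℕ) (v : Fin m → ℕ) : Prop :=
  ∃ κ : ℝ, 0 < κ ∧ ∀ x₀ : ℝ, ∃ (X : ℝ) (D L : ℕ), x₀ ≤ X ∧ κ * f X ≤ L ∧ L ≤ D ∧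
    X ^ (4 / 5 : ℝ) ≤ (count q h L (fun i => D * v i) X : ℝ)

theorem result :
    (∀ m : ℕ, ∃ (K : ℕ) (η : ℝ), 0 < η ∧ ∀ q h : ℕ, Squarefree q → h.Coprime q →
      (∃ (Q : ℕ) (c : ℝ), 0 < Q ∧ 0 < c ∧ ∀ᶠ X : ℝ in atTop,
        -- (1) every set of `K` multiples of `Q` up to `c f(X)`
        (∀ L : ℕ, (L : ℝ) ≤ c * f X → ∀ U : Finset ℕ, K ≤ U.card → (∀ u ∈ U, Q ∣ u ∧ (u : ℝ) ≤ c * f X) →
          (∀ u ∈ U, ∀ u' ∈ U, u < u' → u + L ≤ u') →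
            ∃ t : Fin (m + 1) → ℕ, StrictMono t ∧ (∀ i, t i ∈ U) ∧
              X ^ (4 / 5 : ℝ) ≤ (count q h L (fun i : Fin m => t i.succ - t i.castSucc) X : ℝ)) ∧
        -- (2) a positive proportion of all vectors
        (∀ D N : ℕ, 0 < D → Q ∣ D → K ≤ N → (D : ℝ) * N ≤ c * f X →
          η * (N : ℝ) ^ m ≤ (Set.ncard {v : Fin m → ℕ | (∀ i, 1 ≤ v i ∧ v i ≤ N) ∧
            X ^ (4 / 5 : ℝ) ≤ (count q h D (fun i => D * v i) X : ℝ)} : ℝ))) ∧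
      -- (3) a positive proportion of all primitive shapes recur
      (2 ≤ m → ∀ N : ℕ, K ≤ N → η * (N : ℝ) ^ m ≤
        (Set.ncard {v : Fin m → ℕ | (∀ i, 1 ≤ v i ∧ v i ≤ N) ∧ Finset.univ.gcd v = 1 ∧ Recurs q h v} : ℝ))) ∧
    -- (4) subsets of infinite sets
    (∀ q h : ℕ, Squarefree q → h.Coprime q → ∀ A : Set ℕ, A.Infinite → ∃ B : Set ℕ, B ⊆ A ∧ B.Infinite ∧
      ∀ m : ℕ, ∃ b : ℕ, ∀ t : Fin (m + 1) → ℕ, StrictMono t → (∀ i, t i ∈ B ∧ b ≤ t i) →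
        Recurs q h (fun i : Fin m => t i.succ - t i.castSucc)) :=
  ⟨Pool.Agent.H569.ER.main, Pool.Agent.H569.ER.main_infinite⟩

end Pool.Agent.Results.MP_028722_nt.ExactGapVectors
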