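import Pool.Agent.H204.AS.Conc

open MeasureTheory Set Filter Topology
open scoped ENNReal ComplexConjugate

namespace Pool.Agent.Results.MP_028722_nt.GapOrderAndAllScales

/-!
# The order of the largest gaps and the number of primes in intervals of every scale

Q1 (Cramér) asks whether `p_{n+1} - p_n = O((log p_n) ^ 2)`. In the model of Beurling's
generalised primes, with the Riemann hypothesis (or any other finite set of zeros to the right of
`1 / 2`), the Lindelöf bound and square-root error terms in the counting functions of the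
generalised integers and of the generalised primes, it is shown exactly which constants
`c = limsup (p_{n+1} - p_n) / f(p_n)`, for `f = log ^ 2` and for every other order of magnitude
`f`, occur together with which lower and upper densities of the primes in the intervals
`(x, x + h(x)]`, for all scales `h` of an arbitrary chain at once. The construction uses the engine
of helper521 (`Pool.Agent.H521`).
-/

/-- A sequence of (Beurling) generalised primes `1 < p 0 < p 1 < ⋯ → ∞`. -/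
structure GenPrimes (p : ℕ → ℝ) : Prop where
  one_lt : 1 < p 0
  strictMono : StrictMono p
  tendsto : Tendsto p atTop atTop

/-- The generalised integer `∏ p_j ^ (e j)` with exponent vector `e`. -/
noncomputable def genInt (p : ℕ → ℝ) (e : ℕ →₀ ℕ) : ℝ := e.prod fun j k => p j ^ k

/-- `N_P(x)`, the number of generalised integers `≤ x`, counted with multiplicity. -/
noncomputable def countInts (p : ℕ → ℝ) (x : ℝ) : ℕ := Set.ncard {e : ℕ →₀ ℕ | genInt p e ≤ x}

/-- `π_P(x)`, the number of generalised primes `≤ x`. -/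
noncomputable def countPrimes (p : ℕ → ℝ) (x : ℝ) : ℕ := Set.ncard {j : ℕ | p j ≤ x}

/-- The zeta function `ζ_P(s) = ∑ n^{-s}` over the generalised integers. -/
noncomputable def zetaP (p : ℕ → ℝ) (s : ℂ) : ℂ := ∑' e : ℕ →₀ ℕ, ((genInt p e : ℝ) : ℂ) ^ (-s)

/-- The main term `∫_2^x (1 - ∑_{ρ ∈ Z} Re u^{ρ-1}) du / log u` of the prime counting function,
that is `li x - ∑_ρ li x^ρ` up to a constant, for a finite multiset `Z` of zeros. -/
noncomputable def primeMain (Z : Multiset ℂ) (x : ℝ) : ℝ :=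
  ∫ u in (2 : ℝ)..x, (1 - (Z.map fun ρ => ((u : ℂ) ^ (ρ - 1)).re).sum) / Real.log u

/-- `p` is a system of generalised primes whose zeta function continues to `Re s > 1/2`
with only a simple pole at `1`, with zeros exactly `Z` there (with multiplicity) and with the
Lindelöf bound, and with square-root error terms in the counting of generalised integers and
of generalised primes.  For `Z = 0` this is the Riemann hypothesis for `p`. -/
structure System (Z : Multiset ℂ) (p : ℕ → ℝ) : Prop where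
  primes : GenPrimes p
  summable : ∀ s : ℂ, 1 < s.re → Summable fun e : ℕ →₀ ℕ => ((genInt p e : ℝ) : ℂ) ^ (-s)
  zeta : ∃ g : ℂ → ℂ, DifferentiableOn ℂ g {s : ℂ | 1 / 2 < s.re} ∧
    (∀ s : ℂ, 1 < s.re → (s - 1) * zetaP p s = (Z.map fun ρ => s - ρ).prod * Complex.exp (g s)) ∧
    ∀ ε : ℝ, 0 < ε → ∃ C : ℝ, ∀ s : ℂ, 1 / 2 + ε ≤ s.re →
      ‖(Z.map fun ρ => s - ρ).prod * Complex.exp (g s)‖ ≤ C * (1 + ‖s‖) ^ (1 + ε)
  ints : ∃ κ : ℝ, 0 < κ ∧ ∀ ε : ℝ, 0 < ε → ∃ C : ℝ, ∀ x : ℝ, 1 ≤ x →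
    |(countInts p x : ℝ) - κ * x| ≤ C * x ^ (1 / 2 + ε)
  pnt : ∀ ε : ℝ, 0 < ε → ∃ C : ℝ, ∀ x : ℝ, 2 ≤ x →
    |(countPrimes p x : ℝ) - primeMain Z x| ≤ C * x ^ (1 / 2 + ε)

/-- The ratio of `π_P(x + h(x)) - π_P(x)` and its expected size `h(x) / log x`. -/
noncomputable def density (p : ℕ → ℝ) (h : ℝ → ℝ) (x : ℝ) : ℝ≥0∞ :=
  ENNReal.ofReal (((countPrimes p (x + h x) : ℝ) - countPrimes p x) / (h x / Real.log x))

/-- The lower density of the primes in the intervals `(x, x + h(x)]`. -/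
noncomputable def lowerDensity (p : ℕ → ℝ) (h : ℝ → ℝ) : ℝ≥0∞ := liminf (density p h) atTop

/-- The upper density of the primes in the intervals `(x, x + h(x)]`. -/
noncomputable def upperDensity (p : ℕ → ℝ) (h : ℝ → ℝ) : ℝ≥0∞ := limsup (density p h) atTop

/-- `limsup (p_{n+1} - p_n) / f(p_n) ∈ [0,∞]`. For `f = log ^ 2` this is Cramér's constant, and
Cramér's conjecture says that it is finite. The largest gaps have the order of magnitude `f` iff
this is neither `0` nor `∞`. -/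
noncomputable def gapConst (p : ℕ → ℝ) (f : ℝ → ℝ) : ℝ≥0∞ :=
  limsup (fun n => ENNReal.ofReal ((p (n + 1) - p n) / f (p n))) atTop

/-- The exceptional points: the `x ≥ 2` such that, for some `H` between `A log x` and `x`, the
number of primes in `(x, x + H]` differs from `H / log x` by more than `ε H / log x`. -/
def exceptional (p : ℕ → ℝ) (ε A : ℝ) : Set ℝ :=
  {x | 2 ≤ x ∧ ∃ H, A * Real.log x ≤ H ∧ H ≤ x ∧
    ε * (H / Real.log x) < |((countPrimes p (x + H) : ℝ) - countPrimes p x) - H / Real.log x|}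

/-- The prime number theorem in almost all short intervals: for every `ε > 0` there is `A` such
that the set of the points `x` which are exceptional for `ε`, `A` has measure
`O(X ^ (1/2 + δ))` up to `X`, for every `δ > 0`. -/
def AlmostAll (p : ℕ → ℝ) : Prop := ∀ ε : ℝ, 0 < ε → ∃ A : ℝ, ∀ δ : ℝ, 0 < δ → ∃ K : ℝ,
  ∀ X : ℝ, 1 ≤ X → volume (exceptional p ε A ∩ Iic X) ≤ ENNReal.ofReal (K * X ^ (1 / 2 + δ))

/-- A scale: a function `h` with `h(x) / log x → ∞` and `h(x) ≤ x ^ (1/2 + o(1))`, whose values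
at points of `[x, 2x]` are of the same order. -/
structure Scale (h : ℝ → ℝ) : Prop where
  large : Tendsto (fun x => h x / Real.log x) atTop atTop
  small : ∀ ε : ℝ, 0 < ε → ∀ᶠ x in atTop, h x ≤ x ^ (1 / 2 + ε)
  doubling : ∃ C : ℝ, ∀ᶠ x in atTop, ∀ y, x ≤ y → y ≤ 2 * x → h y ≤ C * h x ∧ h x ≤ C * h y

/-- `h t`, `t ∈ I`, is a chain of scales, of strictly increasing order in `t` (the set `I` of
real numbers is arbitrary), and `f` is a scale of another order than each of them, almost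
constant on intervals of length `f`. -/
structure Chain (I : Set ℝ) (h : ℝ → ℝ → ℝ) (f : ℝ → ℝ) : Prop where
  scale : ∀ t ∈ I, Scale (h t)
  ord : ∀ s ∈ I, ∀ t ∈ I, s < t → Tendsto (fun x => h s x / h t x) atTop (𝓝 0)
  scale_f : Scale f
  slow : ∀ ε : ℝ, 0 < ε → ∀ᶠ x in atTop, ∀ y, x ≤ y → y ≤ x + f x → |f y - f x| ≤ ε * f x
  compare : ∀ t ∈ I, Tendsto (fun x => h t x / f x) atTop (𝓝 0) ∨
    Tendsto (fun x => f x / h t x) atTop (𝓝 0)

open Pool.Agent.H521 Pool.Agent.H521.G Pool.Agent.H204.SI Pool.Agent.H204.AS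

theorem Scale.sc {h : ℝ → ℝ} (s : Scale h) : Sc h := ⟨s.large, s.small, s.doubling⟩

theorem Chain.fam {I : Set ℝ} {h : ℝ → ℝ → ℝ} {f : ℝ → ℝ} (F : Chain I h f) : Fam I h f :=
  ⟨fun t ht => (F.scale t ht).sc, F.ord, F.scale_f.sc, F.slow, F.compare⟩

theorem fam_chain {I : Set ℝ} {h : ℝ → ℝ → ℝ} {f : ℝ → ℝ} (F : Fam I h f) : Chain I h f :=
  ⟨fun t ht => ⟨(F.sc t ht).large, (F.sc t ht).small, (F.sc t ht).dbl⟩, F.ord,
    ⟨F.fsc.large, F.fsc.small, F.fsc.dbl⟩, F.freg, F.fcmp⟩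

/-- The general theorem. -/
theorem part1 {Z : Multiset ℂ} (hZ : ∀ ρ ∈ Z, 1 / 2 < ρ.re ∧ ρ.re < 1)
    (hZc : Z.map conj = Z) {I : Set ℝ} (hI : I.Nonempty) {h : ℝ → ℝ → ℝ} {f : ℝ → ℝ}
    (F : Chain I h f) (c : ℝ≥0∞) (L U : ℝ → ℝ≥0∞) : List.TFAE [
    (∃ p : ℕ → ℝ, System Z p ∧ AlmostAll p ∧ gapConst p f = c ∧
      ∀ t ∈ I, lowerDensity p (h t) = L t ∧ upperDensity p (h t) = U t),
    (∃ p : ℕ → ℝ, System Z p ∧ gapConst p f = c ∧
      ∀ t ∈ I, lowerDensity p (h t) = L t ∧ upperDensity p (h t) = U t),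
    ((∀ s ∈ I, ∀ t ∈ I, s < t → L s ≤ L t ∧ U t ≤ U s) ∧
    (∀ t ∈ I, L t ≤ 1 ∧ 1 ≤ U t) ∧
    (0 < c → ∀ t ∈ I, Tendsto (fun x => h t x / f x) atTop (𝓝 0) → L t = 0))] := by
  have hZ1 : ∀ ρ ∈ Z, ρ.re < 1 := fun ρ h => (hZ ρ h).2
  tfae_have 1 → 2 := fun ⟨p, hS, _, h⟩ => ⟨p, hS, h⟩
  tfae_have 2 → 3 := by
    rintro ⟨p, hS, hc, hd⟩
    have hp := hS.primes.strictMono
    have hpt := hS.primes.tendsto
    refine ⟨fun s hs t ht hst => ?_, fun t ht => ?_, fun hc0 t ht hz => ?_⟩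
    · rw [← (hd s hs).1, ← (hd s hs).2, ← (hd t ht).1, ← (hd t ht).2]
      exact ⟨glow_mono hpt (F.scale s hs).sc (F.scale t ht).sc (F.ord s hs t ht hst),
        gup_anti hpt (F.scale s hs).sc (F.scale t ht).sc (F.ord s hs t ht hst)⟩
    · rw [← (hd t ht).1, ← (hd t ht).2]
      exact ⟨glow_le_one hZ1 hpt hS.pnt (F.scale t ht).sc,
        gone_le_up hZ1 hpt hS.pnt (F.scale t ht).sc⟩
    · rw [← (hd t ht).1]
      rw [← hc] at hc0
      exact glow_zero hp hpt F.scale_f.sc hc0 (F.scale t ht).sc hz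
  tfae_have 3 → 1 := by
    rintro ⟨h1, h2, h3⟩
    obtain ⟨p, hS, hA, hc, hd⟩ := fam_suff hZ1 hZc F.fam hI (c := c) (L := L) (U := U)
      (fun a ha b hb hab => by
        rcases eq_or_lt_of_le hab with rfl | hlt
        · exact le_rfl
        · exact (h1 a ha b hb hlt).1)
      (fun a ha b hb hab => by
        rcases eq_or_lt_of_le hab with rfl | hlt
        · exact le_rfl
        · exact (h1 a ha b hb hlt).2)
      (fun a ha => (h2 a ha).1) (fun a ha => (h2 a ha).2) h3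
    exact ⟨p, ⟨⟨by linarith [hS.three_le 0], hS.mono, hS.tendsto⟩, hS.summable, hS.zeta,
      hS.ints, hS.pnt⟩, hA, hc, hd⟩
  tfae_finish

/-- The concrete theorem, for the scales `log x ^ a` and `x ^ t`. -/
theorem part2 {Z : Multiset ℂ} (hZ : ∀ ρ ∈ Z, 1 / 2 < ρ.re ∧ ρ.re < 1)
    (hZc : Z.map conj = Z) {b : ℝ} (hb : 1 < b) (c : ℝ≥0∞) (L U L' U' : ℝ → ℝ≥0∞) :
    List.TFAE [
    (∃ p : ℕ → ℝ, System Z p ∧ AlmostAll p ∧ gapConst p (fun x => Real.log x ^ b) = c ∧
      (∀ a : ℝ, 1 < a → a ≠ b → lowerDensity p (fun x => Real.log x ^ a) = L a ∧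
        upperDensity p (fun x => Real.log x ^ a) = U a) ∧
      ∀ t : ℝ, 0 < t → t < 1 → lowerDensity p (fun x => x ^ t) = L' t ∧
        upperDensity p (fun x => x ^ t) = U' t),
    (∃ p : ℕ → ℝ, System Z p ∧ gapConst p (fun x => Real.log x ^ b) = c ∧
      (∀ a : ℝ, 1 < a → a ≠ b → lowerDensity p (fun x => Real.log x ^ a) = L a ∧
        upperDensity p (fun x => Real.log x ^ a) = U a) ∧
      ∀ t : ℝ, 0 < t → t < 1 → lowerDensity p (fun x => x ^ t) = L' t ∧
        upperDensity p (fun x => x ^ t) = U' t),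
    ((∀ a a' : ℝ, 1 < a → a < a' → a ≠ b → a' ≠ b → L a ≤ L a' ∧ U a' ≤ U a) ∧
    (∀ a t : ℝ, 1 < a → a ≠ b → 0 < t → t < 1 → L a ≤ L' t ∧ U' t ≤ U a) ∧
    (∀ t t' : ℝ, 0 < t → t < t' → t' < 1 → L' t ≤ L' t' ∧ U' t' ≤ U' t) ∧
    (∀ t : ℝ, 0 < t → t < 1 → L' t ≤ 1 ∧ 1 ≤ U' t ∧ (1 / 2 < t → L' t = 1 ∧ U' t = 1)) ∧
    (0 < c → ∀ a : ℝ, 1 < a → a < b → L a = 0))] := by
  have hZ1 : ∀ ρ ∈ Z, ρ.re < 1 := fun ρ h => (hZ ρ h).2
  -- the densities at the scales `x ^ t`, `t > 1/2`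
  have hone : ∀ p : ℕ → ℝ, System Z p → ∀ t : ℝ, 1 / 2 < t → t < 1 →
      lowerDensity p (fun x => x ^ t) = 1 ∧ upperDensity p (fun x => x ^ t) = 1 := by
    intro p hS t h0 h1
    exact one_of_bounds fun ε hε => ratio_one hZ1 hS.pnt h0 h1.le hε
  -- the combined functions
  set LL : ℝ → ℝ≥0∞ := fun t => if t < 0 then L (-1 / t) else L' t with hLL
  set UU : ℝ → ℝ≥0∞ := fun t => if t < 0 then U (-1 / t) else U' t with hUU
  have hinv : ∀ a : ℝ, 1 < a → -1 < -1 / a ∧ -1 / a < 0 ∧ -1 / (-1 / a) = a := by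
    intro a ha
    have h0 : 0 < a := by linarith
    refine ⟨?_, ?_, ?_⟩
    · rw [lt_div_iff₀ h0]; linarith
    · rw [div_lt_iff₀ h0]; linarith
    · field_simp
  have hmixlog : ∀ a : ℝ, 1 < a → mix (-1 / a) = fun x => Real.log x ^ a := by
    intro a ha
    obtain ⟨h1, h2, h3⟩ := hinv a ha
    funext x
    unfold mix
    rw [if_pos h2, h3]
  have hmixpow : ∀ t : ℝ, 0 < t → mix t = fun x => x ^ t := by
    intro t ht
    funext x
    unfold mix
    rw [if_neg (not_lt.2 ht.le)]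
  have hIne : (mixI b).Nonempty := ⟨1 / 2, Or.inr ⟨by norm_num, le_rfl⟩⟩
  have hIlog : ∀ a : ℝ, 1 < a → a ≠ b → -1 / a ∈ mixI b := fun a ha hab => by
    obtain ⟨h1, h2, h3⟩ := hinv a ha
    exact Or.inl ⟨h1, h2, by rw [h3]; exact hab⟩
  have key := part1 hZ hZc hIne (fam_chain (fam_mix hb)) c LL UU
  have key12 := key.out 1 2
  have key20 := key.out 2 0
  tfae_have 1 → 2 := fun ⟨p, hS, _, h⟩ => ⟨p, hS, h⟩
  tfae_have 2 → 3 := by
    rintro ⟨p, hS, hc, hl, hpw⟩
    obtain ⟨k1, k2, k3⟩ := key12.1 ⟨p, hS, hc, by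
      rintro t (⟨h1, h2, h3⟩ | ⟨h1, h2⟩)
      · have e : mix t = fun x => Real.log x ^ (-1 / t) := by
          funext x; unfold mix; rw [if_pos h2]
        simp only [hLL, hUU, e, if_pos h2]
        exact hl _ (one_lt_inv h1 h2) h3
      · simp only [hLL, hUU, hmixpow t h1, if_neg (not_lt.2 h1.le)]
        exact hpw t h1 (by linarith)⟩
    have eL : ∀ a : ℝ, 1 < a → LL (-1 / a) = L a ∧ UU (-1 / a) = U a := fun a ha => by
      obtain ⟨h1, h2, h3⟩ := hinv a ha
      constructor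
      · simp only [hLL, if_pos h2, h3]
      · simp only [hUU, if_pos h2, h3]
    have eP : ∀ t : ℝ, 0 < t → LL t = L' t ∧ UU t = U' t := fun t ht => by
      constructor
      · simp only [hLL, if_neg (not_lt.2 ht.le)]
      · simp only [hUU, if_neg (not_lt.2 ht.le)]
    have hbig : ∀ t : ℝ, 0 < t → t < 1 → 1 / 2 < t → L' t = 1 ∧ U' t = 1 := fun t h0 h1 h2 => by
      rw [← (hpw t h0 h1).1, ← (hpw t h0 h1).2]
      exact hone p hS t h2 h1
    have hone' : ∀ t : ℝ, 0 < t → t < 1 → L' t ≤ 1 ∧ 1 ≤ U' t := fun t h0 h1 => by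
      rcases le_or_gt t (1 / 2) with h2 | h2
      · have := k2 t (Or.inr ⟨h0, h2⟩)
        rwa [(eP t h0).1, (eP t h0).2] at this
      · rw [(hbig t h0 h1 h2).1, (hbig t h0 h1 h2).2]
        exact ⟨le_rfl, le_rfl⟩
    have hone'' : ∀ a : ℝ, 1 < a → a ≠ b → L a ≤ 1 ∧ 1 ≤ U a := fun a h0 h1 => by
      have := k2 _ (hIlog a h0 h1)
      rwa [(eL a h0).1, (eL a h0).2] at this
    refine ⟨fun a a' ha haa hab hab' => ?_, fun a t ha hab h0 h1 => ?_,
      fun t t' h0 htt h1 => ?_, fun t h0 h1 => ⟨(hone' t h0 h1).1, (hone' t h0 h1).2,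
        hbig t h0 h1⟩, fun hc0 a ha hab => ?_⟩
    · have ha' : 1 < a' := by linarith
      have h2 : -1 / a < -1 / a' := by
        rw [div_lt_div_iff₀ (by linarith) (by linarith)]; linarith
      have := k1 _ (hIlog a ha hab) _ (hIlog a' ha' hab') h2
      rwa [(eL a ha).1, (eL a ha).2, (eL a' ha').1, (eL a' ha').2] at this
    · rcases le_or_gt t (1 / 2) with h2 | h2
      · have := k1 _ (hIlog a ha hab) t (Or.inr ⟨h0, h2⟩) (by linarith [(hinv a ha).2.1])
        rwa [(eL a ha).1, (eL a ha).2, (eP t h0).1, (eP t h0).2] at this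
      · rw [(hbig t h0 h1 h2).1, (hbig t h0 h1 h2).2]
        exact hone'' a ha hab
    · rcases le_or_gt t' (1 / 2) with h2 | h2
      · have h0' : 0 < t' := by linarith
        have := k1 t (Or.inr ⟨h0, by linarith⟩) t' (Or.inr ⟨h0', h2⟩) htt
        rwa [(eP t h0).1, (eP t h0).2, (eP t' h0').1, (eP t' h0').2] at this
      · rw [(hbig t' (by linarith) h1 h2).1, (hbig t' (by linarith) h1 h2).2]
        exact hone' t h0 (by linarith)
    · obtain ⟨h1, h2, h3⟩ := hinv a ha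
      have := k3 hc0 _ (hIlog a ha hab.ne) (by
        rw [hmixlog a ha]
        exact log_over_log hab)
      rwa [(eL a ha).1] at this
  tfae_have 3 → 1 := by
    rintro ⟨h1, h2, h3, h4, h5⟩
    have hcond : (∀ s ∈ mixI b, ∀ t ∈ mixI b, s < t → LL s ≤ LL t ∧ UU t ≤ UU s) ∧
        (∀ t ∈ mixI b, LL t ≤ 1 ∧ 1 ≤ UU t) ∧
        (0 < c → ∀ t ∈ mixI b,
          Tendsto (fun x => mix t x / Real.log x ^ b) atTop (𝓝 0) → LL t = 0) := by
      refine ⟨?_, ?_, ?_⟩
      · rintro s (⟨g1, g2, g3⟩ | ⟨g1, g2⟩) t (⟨g4, g5, g6⟩ | ⟨g4, g5⟩) hst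
        · simp only [hLL, hUU, if_pos g2, if_pos g5]
          exact h1 _ _ (one_lt_inv g1 g2) (inv_lt hst g5) g3 g6
        · simp only [hLL, hUU, if_pos g2, if_neg (not_lt.2 g4.le)]
          exact h2 _ _ (one_lt_inv g1 g2) g3 g4 (by linarith)
        · linarith
        · simp only [hLL, hUU, if_neg (not_lt.2 g1.le), if_neg (not_lt.2 g4.le)]
          exact h3 _ _ g1 hst (by linarith)
      · rintro t (⟨g1, g2, g3⟩ | ⟨g1, g2⟩)
        · simp only [hLL, hUU, if_pos g2]
          have k := h2 _ (1 / 2) (one_lt_inv g1 g2) g3 (by norm_num) (by norm_num)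
          have k' := h4 (1 / 2) (by norm_num) (by norm_num)
          exact ⟨k.1.trans k'.1, k'.2.1.trans k.2⟩
        · simp only [hLL, hUU, if_neg (not_lt.2 g1.le)]
          have k' := h4 t g1 (by linarith)
          exact ⟨k'.1, k'.2.1⟩
      · rintro hc0 t (⟨g1, g2, g3⟩ | ⟨g1, g2⟩) hz
        · simp only [hLL, if_pos g2]
          have e : mix t = fun x => Real.log x ^ (-1 / t) := by
            funext x; unfold mix; rw [if_pos g2]
          rw [e] at hz
          apply h5 hc0 _ (one_lt_inv g1 g2)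
          by_contra hcon
          have hlt : b < -1 / t := lt_of_le_of_ne (not_lt.1 hcon) (Ne.symm g3)
          have hz2 := log_over_log hlt
          have hz3 := hz.mul hz2
          simp only [mul_zero] at hz3
          have hz4 : Tendsto (fun _ : ℝ => (1 : ℝ)) atTop (𝓝 0) := by
            refine hz3.congr' ?_
            filter_upwards [Real.tendsto_log_atTop.eventually_gt_atTop 0] with x hx
            have h6 := Real.rpow_pos_of_pos hx b
            have h7 := Real.rpow_pos_of_pos hx (-1 / t)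
            field_simp
          exact one_ne_zero (tendsto_nhds_unique tendsto_const_nhds hz4)
        · exfalso
          rw [hmixpow t g1] at hz
          have hz2 := log_rpow_over_rpow b t g1
          have hz3 := hz.mul hz2
          simp only [mul_zero] at hz3
          have hz4 : Tendsto (fun _ : ℝ => (1 : ℝ)) atTop (𝓝 0) := by
            refine hz3.congr' ?_
            filter_upwards [Real.tendsto_log_atTop.eventually_gt_atTop 0,
              eventually_gt_atTop 0] with x hx hx0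
            have h6 := Real.rpow_pos_of_pos hx b
            have h7 := Real.rpow_pos_of_pos hx0 t
            field_simp
          exact one_ne_zero (tendsto_nhds_unique tendsto_const_nhds hz4)
    obtain ⟨p, hS, hA, hc, hd⟩ := key20.1 hcond
    refine ⟨p, hS, hA, hc, fun a ha hab => ?_, fun t h0 ht => ?_⟩
    · have := hd _ (hIlog a ha hab)
      obtain ⟨g1, g2, g3⟩ := hinv a ha
      rw [hmixlog a ha] at this
      simp only [hLL, hUU, if_pos g2, g3] at this
      exact this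
    · rcases le_or_gt t (1 / 2) with hc | hc
      · have := hd t (Or.inr ⟨h0, hc⟩)
        rw [hmixpow t h0] at this
        simp only [hLL, hUU, if_neg (not_lt.2 h0.le)] at this
        exact this
      · have := (h4 t h0 ht).2.2 hc
        rw [this.1, this.2]
        exact hone p hS t hc ht
  tfae_finish

/-- **Theorem.** (1) For every chain of scales `h t`, `t ∈ I`, and every possible order of
magnitude `f` of the gaps: the constants `c = limsup (p_{n+1} - p_n) / f(p_n)` and pairs of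
functions `L, U : I → [0, ∞]`, the lower and upper densities of the primes in the intervals
`(x, x + h t x]`, which occur together for systems of generalised primes with Riemann hypothesis
(or any other finite set of zeros to the right of `1 / 2`), Lindelöf bound and square-root error
terms; and this is the same for the systems which have in addition the asymptotic law in almost
all intervals, of all lengths `H ≥ A log x`, with exceptional sets of measure `O(X ^ (1/2 + δ))`.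
(2) The case of all scales `log x ^ a`, `a > 1`, and `x ^ t`, `0 < t < 1`, together. -/
theorem result (Z : Multiset ℂ) (hZ : ∀ ρ ∈ Z, 1 / 2 < ρ.re ∧ ρ.re < 1) (hZc : Z.map conj = Z) :
    (∀ (I : Set ℝ) (h : ℝ → ℝ → ℝ) (f : ℝ → ℝ), I.Nonempty → Chain I h f →
      ∀ (c : ℝ≥0∞) (L U : ℝ → ℝ≥0∞), List.TFAE [
      (∃ p : ℕ → ℝ, System Z p ∧ AlmostAll p ∧ gapConst p f = c ∧
        ∀ t ∈ I, lowerDensity p (h t) = L t ∧ upperDensity p (h t) = U t),
      (∃ p : ℕ → ℝ, System Z p ∧ gapConst p f = c ∧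
        ∀ t ∈ I, lowerDensity p (h t) = L t ∧ upperDensity p (h t) = U t),
      ((∀ s ∈ I, ∀ t ∈ I, s < t → L s ≤ L t ∧ U t ≤ U s) ∧
      (∀ t ∈ I, L t ≤ 1 ∧ 1 ≤ U t) ∧
      (0 < c → ∀ t ∈ I, Tendsto (fun x => h t x / f x) atTop (𝓝 0) → L t = 0))]) ∧
    (∀ b : ℝ, 1 < b → ∀ (c : ℝ≥0∞) (L U L' U' : ℝ → ℝ≥0∞), List.TFAE [
      (∃ p : ℕ → ℝ, System Z p ∧ AlmostAll p ∧ gapConst p (fun x => Real.log x ^ b) = c ∧
        (∀ a : ℝ, 1 < a → a ≠ b → lowerDensity p (fun x => Real.log x ^ a) = L a ∧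
          upperDensity p (fun x => Real.log x ^ a) = U a) ∧
        ∀ t : ℝ, 0 < t → t < 1 → lowerDensity p (fun x => x ^ t) = L' t ∧
          upperDensity p (fun x => x ^ t) = U' t),
      (∃ p : ℕ → ℝ, System Z p ∧ gapConst p (fun x => Real.log x ^ b) = c ∧
        (∀ a : ℝ, 1 < a → a ≠ b → lowerDensity p (fun x => Real.log x ^ a) = L a ∧
          upperDensity p (fun x => Real.log x ^ a) = U a) ∧
        ∀ t : ℝ, 0 < t → t < 1 → lowerDensity p (fun x => x ^ t) = L' t ∧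
          upperDensity p (fun x => x ^ t) = U' t),
      ((∀ a a' : ℝ, 1 < a → a < a' → a ≠ b → a' ≠ b → L a ≤ L a' ∧ U a' ≤ U a) ∧
      (∀ a t : ℝ, 1 < a → a ≠ b → 0 < t → t < 1 → L a ≤ L' t ∧ U' t ≤ U a) ∧
      (∀ t t' : ℝ, 0 < t → t < t' → t' < 1 → L' t ≤ L' t' ∧ U' t' ≤ U' t) ∧
      (∀ t : ℝ, 0 < t → t < 1 → L' t ≤ 1 ∧ 1 ≤ U' t ∧ (1 / 2 < t → L' t = 1 ∧ U' t = 1)) ∧
      (0 < c → ∀ a : ℝ, 1 < a → a < b → L a = 0))]) :=
  ⟨fun _ _ _ hI F c L U => part1 hZ hZc hI F c L U,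
    fun _ hb c L U L' U' => part2 hZ hZc hb c L U L' U'⟩

end Pool.Agent.Results.MP_028722_nt.GapOrderAndAllScales
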