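import Pool.Agent.H521.G.LimSuff

open MeasureTheory Set Filter Topology
open scoped ENNReal ComplexConjugate

namespace Pool.Agent.Results.MP_028722_nt.LimitPointsAndCramerConstant

/-- A sequence of (Beurling) generalised primes `1 < p 0 < p 1 < ⋯ → ∞`. -/
structure GenPrimes (p : ℕ → ℝ) : Prop where
  one_lt : 1 < p 0
  strictMono : StrictMono p
  tendsto : Tendsto p atTop atTop

/-- The generalised integer `∏ p_j ^ (e j)` with exponent vector `e`. -/
noncomputable def genInt (p : ℕ → ℝ) (e : ℕ →₀ ℕ) : ℝ := e.prod fun j k => p j ^ k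

/-- `N_P(x)`, the number of generalised integers `≤ x`, counted with multiplicity. -/
noncomputable def countInts (p : ℕ → ℝ) (x : ℝ) : ℕ := Set.ncard {e : ℕ →₀ ℕ | genInt p e ≤ x}

/-- `π_P(x)`, the number of generalised primes `≤ x`. -/
noncomputable def countPrimes (p : ℕ → ℝ) (x : ℝ) : ℕ := Set.ncard {j : ℕ | p j ≤ x}

/-- The zeta function `ζ_P(s) = ∑ n^{-s}` over the generalised integers. -/
noncomputable def zetaP (p : ℕ → ℝ) (s : ℂ) : ℂ := ∑' e : ℕ →₀ ℕ, ((genInt p e : ℝ) : ℂ) ^ (-s)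

/-- The main term `∫_2^x (1 - ∑_{ρ ∈ Z} Re u^{ρ-1}) du / log u` of the prime counting function,
that is `li x - ∑_ρ li x^ρ` up to a constant, for a finite multiset `Z` of zeros. -/
noncomputable def primeMain (Z : Multiset ℂ) (x : ℝ) : ℝ :=
  ∫ u in (2 : ℝ)..x, (1 - (Z.map fun ρ => ((u : ℂ) ^ (ρ - 1)).re).sum) / Real.log u

/-- `p` is a system of generalised primes whose zeta function continues to `Re s > 1/2`
with only a simple pole at `1`, with zeros exactly `Z` there (with multiplicity) and with the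
Lindelöf bound, and with square-root error terms in the counting of generalised integers and
of generalised primes.  For `Z = 0` this is the Riemann hypothesis for `p`. -/
structure System (Z : Multiset ℂ) (p : ℕ → ℝ) : Prop where
  primes : GenPrimes p
  summable : ∀ s : ℂ, 1 < s.re → Summable fun e : ℕ →₀ ℕ => ((genInt p e : ℝ) : ℂ) ^ (-s)
  zeta : ∃ g : ℂ → ℂ, DifferentiableOn ℂ g {s : ℂ | 1 / 2 < s.re} ∧
    (∀ s : ℂ, 1 < s.re → (s - 1) * zetaP p s = (Z.map fun ρ => s - ρ).prod * Complex.exp (g s)) ∧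
    ∀ ε : ℝ, 0 < ε → ∃ C : ℝ, ∀ s : ℂ, 1 / 2 + ε ≤ s.re →
      ‖(Z.map fun ρ => s - ρ).prod * Complex.exp (g s)‖ ≤ C * (1 + ‖s‖) ^ (1 + ε)
  ints : ∃ κ : ℝ, 0 < κ ∧ ∀ ε : ℝ, 0 < ε → ∃ C : ℝ, ∀ x : ℝ, 1 ≤ x →
    |(countInts p x : ℝ) - κ * x| ≤ C * x ^ (1 / 2 + ε)
  pnt : ∀ ε : ℝ, 0 < ε → ∃ C : ℝ, ∀ x : ℝ, 2 ≤ x →
    |(countPrimes p x : ℝ) - primeMain Z x| ≤ C * x ^ (1 / 2 + ε)

/-- The set of limit points in `[0,∞]` of the normalised gaps `(p_{n+1} - p_n) / log p_n`. -/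
def limitPoints (p : ℕ → ℝ) : Set ℝ≥0∞ :=
  {a | MapClusterPt a atTop fun n => ENNReal.ofReal ((p (n + 1) - p n) / Real.log (p n))}

/-- The Cramér constant `limsup (p_{n+1} - p_n) / (log p_n)^2 ∈ [0,∞]`. -/
noncomputable def cramerConst (p : ℕ → ℝ) : ℝ≥0∞ :=
  limsup (fun n => ENNReal.ofReal ((p (n + 1) - p n) / Real.log (p n) ^ 2)) atTop

open Pool.Agent.H521 Pool.Agent.H521.G in
/-- **Theorem.** The pairs (set of limit points of the normalised gaps, Cramér constant) that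
occur for systems of generalised primes with Riemann hypothesis (or any other finite set of
zeros) and with square-root error terms are exactly those allowed by the prime number
theorem. -/
theorem result (Z : Multiset ℂ) (hZ : ∀ ρ ∈ Z, 1 / 2 < ρ.re ∧ ρ.re < 1)
    (hZc : Z.map conj = Z) (A : Set ℝ≥0∞) (c : ℝ≥0∞) :
    (∃ p : ℕ → ℝ, System Z p ∧ limitPoints p = A ∧ cramerConst p = c) ↔
      IsClosed A ∧ (∃ a ∈ A, a ≤ 1) ∧ (∃ a ∈ A, 1 ≤ a) ∧ (0 < c → ∞ ∈ A) := by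
  have hZ1 : ∀ ρ ∈ Z, ρ.re < 1 := fun ρ h => (hZ ρ h).2
  constructor
  · rintro ⟨p, hS, rfl, rfl⟩
    have hp := hS.primes.strictMono
    have hpt := hS.primes.tendsto
    exact ⟨isClosed_limitSet p, limitSet_le_one hZ1 hp hpt hS.pnt,
      one_le_limitSet hZ1 hp hpt hS.pnt, fun h => top_mem_limitSet hpt h⟩
  · rintro ⟨hA, hα, hβ, hc⟩
    obtain ⟨p, hmono, hpt, hp3, hzeta, hints, hpnt, hsum, hlim, hcr⟩ :=
      limset_exists hZ1 hZc hA hα hβ hc
    exact ⟨p, ⟨⟨by linarith [hp3 0], hmono, hpt⟩, hsum, hzeta, hints, hpnt⟩, hlim, hcr⟩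

end Pool.Agent.Results.MP_028722_nt.LimitPointsAndCramerConstant
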